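import Pool.Agent.Helper34_GG.Ma
import Pool.Agent.Helper5_OPH.SCA
import Pool.Agent.Helper37_OPH.PTE
import Pool.Agent.Helper38_OPH.LGX
import Pool.Agent.Helper81_OPH.LAN
import Pool.Agent.Helper81_OPH.END
import Pool.Agent.Helper81_OPH.DV2
import Pool.Agent.Helper44_OPH.GR2
import Pool.Agent.Helper64_OPH.EXT
import Pool.Agent.Helper28_OPH.ORD
import Pool.Agent.Helper59_OPH.DKL
import Pool.Agent.Helper87_OPH.STA
import Pool.Agent.Helper1_OPG.CT3
import Pool.Agent.Helper72_OPG.CT1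
import Pool.Agent.Helper15_OPG.CT2
import Pool.Agent.Helper91_OPG.GAP
import Pool.Agent.Helper17_OPG.BAD

/-!
# Assembly
-/

set_option autoImplicit false

namespace Pool.Agent.Helper34_GG

open Finset Pool.Agent.OPG Pool.Agent.OPH

theorem gr2Stmt : Gr2Stmt :=
  Pool.Agent.OPH.H44.gr2 (Pool.Agent.OPH.H5.sca Pool.Agent.OPH.H37.pte
    (Pool.Agent.OPH.H64.ext Pool.Agent.OPH.H38.lgx) Pool.Agent.OPH.H87.sta
    Pool.Agent.OPH.H81.end_)

theorem ct3Stmt : Ct3Stmt :=
  Pool.Agent.OPG.H1.ct3 Pool.Agent.OPG.H72.ct1 Pool.Agent.OPG.H15.ct2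
    Pool.Agent.Helper91_OPG.GAP.result

theorem dv2Stmt : Dv2Stmt :=
  Pool.Agent.OPH.H81.dv2 Pool.Agent.OPH.H81.lan Pool.Agent.OPH.H59.dkl

/-- the general theorem with `M = 2k` and the binary logarithm -/
theorem main2 : ∃ C : ℕ, 1 ≤ C ∧ ∀ (M n1 : ℕ), C ≤ M → Even M → Odd n1 →
    (n1 * Nat.log 2 M) ^ C ≤ M →
    ∀ (G : Type) [CommGroup G] (f : ℕ → G) (γ : G), OMG f → f n1 ≠ 1 →
    M ≤ (n1 * Nat.log 2 M) ^ C * (NG f γ M).card :=
  fig gr2Stmt Pool.Agent.OPH.H28.ord Pool.Agent.OPG.H17.bad ct3Stmt dv2Stmt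

/-- comparison of the logarithms -/
theorem log_cmp : ∃ K : ℕ, 3 ≤ K ∧ ∀ k : ℕ, K ≤ k →
    ((Nat.log 2 (2 * k) : ℕ) : ℝ) ≤ Real.log k ^ 2 ∧ 1 ≤ Real.log k := by
  refine ⟨16, by norm_num, ?_⟩
  intro k hk
  have hkR : (16 : ℝ) ≤ k := by exact_mod_cast hk
  have hk0 : (0 : ℝ) < k := by linarith
  have h2 : (0.6931471803 : ℝ) < Real.log 2 := Real.log_two_gt_d9
  have h2' : Real.log 2 < 0.6931471808 := Real.log_two_lt_d9
  have h16 : Real.log 16 = 4 * Real.log 2 := by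
    have e : (16 : ℝ) = 2 ^ 4 := by norm_num
    rw [e, Real.log_pow]
    norm_num
  have hlk : 4 * Real.log 2 ≤ Real.log k := by
    rw [← h16]
    exact Real.log_le_log (by norm_num) hkR
  have h3 : (2 : ℝ) ^ (Nat.log 2 (2 * k)) ≤ 2 * k := by
    have := Nat.pow_log_le_self 2 (x := 2 * k) (by omega)
    exact_mod_cast this
  have h4 : (Nat.log 2 (2 * k) : ℝ) * Real.log 2 ≤ Real.log 2 + Real.log k := by
    have h5 := Real.log_le_log (by positivity) h3
    rw [Real.log_pow, Real.log_mul (by norm_num) (by linarith)] at h5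
    exact h5
  refine ⟨?_, by linarith⟩
  have h6 : Real.log 2 + Real.log k ≤ Real.log k ^ 2 * Real.log 2 := by
    have e1 : (2.77 : ℝ) ≤ Real.log k := by linarith
    nlinarith
  have h7 : (Nat.log 2 (2 * k) : ℝ) * Real.log 2 ≤ Real.log k ^ 2 * Real.log 2 := h4.trans h6
  exact le_of_mul_le_mul_right h7 (by linarith)

/-- the general theorem -/
theorem mainR : ∃ C : ℕ, 1 ≤ C ∧ ∀ (k n1 : ℕ), C ≤ k → Odd n1 →
    ((n1 : ℝ) * Real.log k) ^ C ≤ k →
    ∀ (G : Type) [CommGroup G] (f : ℕ → G) (γ : G), OMG f → f n1 ≠ 1 →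
    (k : ℝ) ≤ ((n1 : ℝ) * Real.log k) ^ C * (NG f γ (2 * k)).card := by
  obtain ⟨C, hC1, hC⟩ := main2
  obtain ⟨K, hK3, hK⟩ := log_cmp
  refine ⟨2 * C + K, by omega, ?_⟩
  intro k n1 hk hn1 hbig G _ f γ hf hf1
  obtain ⟨hl, hl1⟩ := hK k (by omega)
  have hn1R : (1 : ℝ) ≤ n1 := by exact_mod_cast hn1.pos
  have hn0 : (0 : ℝ) ≤ (Nat.log 2 (2 * k) : ℕ) := Nat.cast_nonneg _
  have hnl1 : (1 : ℝ) ≤ n1 * Real.log k := by nlinarith
  have h1 : ((n1 : ℝ) * (Nat.log 2 (2 * k) : ℕ)) ^ C ≤ ((n1 : ℝ) * Real.log k) ^ (2 * C + K) := by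
    calc ((n1 : ℝ) * (Nat.log 2 (2 * k) : ℕ)) ^ C ≤ (((n1 : ℝ) * Real.log k) ^ 2) ^ C := by
          apply pow_le_pow_left₀ (by positivity)
          rw [mul_pow]
          apply mul_le_mul _ hl hn0 (by positivity)
          nlinarith
      _ = ((n1 : ℝ) * Real.log k) ^ (2 * C) := by rw [← pow_mul]
      _ ≤ _ := pow_le_pow_right₀ hnl1 (by omega)
  have hkR : (0 : ℝ) ≤ k := Nat.cast_nonneg _
  have h2 : (n1 * Nat.log 2 (2 * k)) ^ C ≤ 2 * k := by
    have h3 : (((n1 * Nat.log 2 (2 * k)) ^ C : ℕ) : ℝ) ≤ ((2 * k : ℕ) : ℝ) := by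
      push_cast
      linarith
    exact_mod_cast h3
  have h3 := hC (2 * k) n1 (by omega) (even_two_mul k) hn1 h2 G f γ hf hf1
  have h4 : ((2 * k : ℕ) : ℝ) ≤ (((n1 * Nat.log 2 (2 * k)) ^ C * (NG f γ (2 * k)).card : ℕ) : ℝ) := by
    exact_mod_cast h3
  push_cast at h4
  have h5 : ((n1 : ℝ) * (Nat.log 2 (2 * k) : ℕ)) ^ C * (NG f γ (2 * k)).card ≤
      ((n1 : ℝ) * Real.log k) ^ (2 * C + K) * (NG f γ (2 * k)).card :=
    mul_le_mul_of_nonneg_right h1 (Nat.cast_nonneg _)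
  linarith

theorem mem_NG {G : Type} [CommGroup G] {f : ℕ → G} {γ : G} {M n : ℕ} :
    n ∈ NG f γ M ↔ n ∈ Finset.Ioo ((M - 1) ^ 2) ((M + 1) ^ 2) ∧ Odd n ∧ f n ≠ γ := by
  classical
  unfold NG
  exact Finset.mem_filter

/-! ### Generation -/

/-- the odd integers of the interval, outside `B` -/
def SB (k : ℕ) (B : Finset ℕ) (n : ℕ) : Prop :=
  n ∈ Finset.Ioo ((2 * k - 1) ^ 2) ((2 * k + 1) ^ 2) ∧ Odd n ∧ n ∉ B

/-- products of powers of the odd integers of the interval outside `B`, with sum of exponents `0` -/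
def HB (k : ℕ) (B : Finset ℕ) : Subgroup ℚˣ where
  carrier := {x | ∃ e : ℕ → ℤ, (∀ n, e n ≠ 0 → SB k B n) ∧
    ∑ n ∈ Finset.Ioo ((2 * k - 1) ^ 2) ((2 * k + 1) ^ 2), e n = 0 ∧
    ∏ n ∈ Finset.Ioo ((2 * k - 1) ^ 2) ((2 * k + 1) ^ 2), ((n : ℕ) : ℚ) ^ (e n) = (x : ℚ)}
  mul_mem' := by
    rintro x y ⟨e, h1, h2, h3⟩ ⟨e', h1', h2', h3'⟩
    refine ⟨fun n => e n + e' n, fun n hn => ?_, ?_, ?_⟩
    · by_cases h : e n = 0
      · apply h1' n
        intro h'
        apply hn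
        change e n + e' n = 0
        rw [h, h', add_zero]
      · exact h1 n h
    · rw [Finset.sum_add_distrib, h2, h2', add_zero]
    · rw [Units.val_mul, ← h3, ← h3', ← Finset.prod_mul_distrib]
      refine Finset.prod_congr rfl fun n hn => ?_
      rw [Finset.mem_Ioo] at hn
      exact zpow_add₀ (by
        have : 0 < n := by omega
        exact_mod_cast this.ne') _ _
  one_mem' := ⟨fun _ => 0, fun n hn => absurd rfl hn, by simp, by simp⟩
  inv_mem' := by
    rintro x ⟨e, h1, h2, h3⟩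
    refine ⟨fun n => - e n, fun n hn => h1 n (fun h => hn (by
      change - e n = 0
      rw [h, neg_zero])), ?_, ?_⟩
    · rw [Finset.sum_neg_distrib, h2, neg_zero]
    · rw [Units.val_inv_eq_inv_val, ← h3, ← Finset.prod_inv_distrib]
      refine Finset.prod_congr rfl fun n _ => ?_
      exact zpow_neg _ _

/-- quotients of two elements of `SB` -/
theorem quot_mem (k : ℕ) (B : Finset ℕ) (n m : ℕ) (hn : SB k B n) (hm : SB k B m) (x : ℚˣ)
    (hx : (x : ℚ) = n / m) : x ∈ HB k B := by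
  classical
  by_cases hnm : n = m
  · have hx1 : x = 1 := by
      apply Units.ext
      rw [hx, hnm, Units.val_one]
      have h0 : 0 < m := by
        have := hm.1
        rw [Finset.mem_Ioo] at this
        omega
      have h0' : (m : ℚ) ≠ 0 := by exact_mod_cast h0.ne'
      exact div_self h0'
    rw [hx1]
    exact one_mem _
  · refine ⟨fun j => (if j = n then 1 else 0) - (if j = m then 1 else 0), fun j hj => ?_, ?_, ?_⟩
    · by_cases h1 : j = n
      · rw [h1]; exact hn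
      · by_cases h2 : j = m
        · rw [h2]; exact hm
        · exfalso
          apply hj
          simp [h1, h2]
    · rw [Finset.sum_sub_distrib, Finset.sum_ite_eq', Finset.sum_ite_eq', if_pos hn.1,
        if_pos hm.1, sub_self]
    · have h0 : ∀ j ∈ Finset.Ioo ((2 * k - 1) ^ 2) ((2 * k + 1) ^ 2),
          ((j : ℕ) : ℚ) ^ ((if j = n then (1 : ℤ) else 0) - (if j = m then 1 else 0)) =
          (if j = n then ((j : ℕ) : ℚ) else 1) / (if j = m then ((j : ℕ) : ℚ) else 1) := by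
        intro j hj
        rw [Finset.mem_Ioo] at hj
        have hj0 : (j : ℚ) ≠ 0 := by
          have : 0 < j := by omega
          exact_mod_cast this.ne'
        rw [zpow_sub₀ hj0]
        split_ifs <;> simp
      rw [Finset.prod_congr rfl h0, Finset.prod_div_distrib, Finset.prod_ite_eq',
        Finset.prod_ite_eq', if_pos hn.1, if_pos hm.1, hx]

/-- the function to the quotient -/
noncomputable def fB (k : ℕ) (B : Finset ℕ) (n : ℕ) : ℚˣ ⧸ HB k B := by
  classical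
  exact if h : (n : ℚ) = 0 then 1 else QuotientGroup.mk (Units.mk0 (n : ℚ) h)

theorem fB_eq (k : ℕ) (B : Finset ℕ) (n : ℕ) (h : (n : ℚ) ≠ 0) :
    fB k B n = QuotientGroup.mk (Units.mk0 (n : ℚ) h) := by
  unfold fB
  rw [dif_neg h]

theorem fB_omg (k : ℕ) (B : Finset ℕ) : OMG (fB k B) := by
  intro a b ha hb
  have ha0 : (a : ℚ) ≠ 0 := by exact_mod_cast ha.pos.ne'
  have hb0 : (b : ℚ) ≠ 0 := by exact_mod_cast hb.pos.ne'
  have hab : ((a * b : ℕ) : ℚ) ≠ 0 := by
    push_cast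
    exact mul_ne_zero ha0 hb0
  rw [fB_eq k B a ha0, fB_eq k B b hb0, fB_eq k B (a * b) hab, ← QuotientGroup.mk_mul]
  have e : Units.mk0 ((a * b : ℕ) : ℚ) hab = Units.mk0 (a : ℚ) ha0 * Units.mk0 (b : ℚ) hb0 := by
    apply Units.ext
    simp
  rw [e]

/-- robust generation -/
theorem gen : ∃ C : ℕ, 1 ≤ C ∧ ∀ (k n1 : ℕ), C ≤ k → Odd n1 →
    ((n1 : ℝ) * Real.log k) ^ C ≤ k →
    (∀ (G : Type) [CommGroup G] (f : ℕ → G) (γ : G), OMG f → f n1 ≠ 1 →
      (k : ℝ) ≤ ((n1 : ℝ) * Real.log k) ^ C * (NG f γ (2 * k)).card) ∧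
    ∀ B : Finset ℕ, ((n1 : ℝ) * Real.log k) ^ C * B.card < k →
      ∃ e : ℕ → ℤ, (∀ n, e n ≠ 0 → SB k B n) ∧
        ∑ n ∈ Finset.Ioo ((2 * k - 1) ^ 2) ((2 * k + 1) ^ 2), e n = 0 ∧
        ∏ n ∈ Finset.Ioo ((2 * k - 1) ^ 2) ((2 * k + 1) ^ 2), ((n : ℕ) : ℚ) ^ (e n) = (n1 : ℚ) := by
  obtain ⟨C, hC1, hC⟩ := mainR
  refine ⟨C + 16, by omega, ?_⟩
  intro k n1 hk hn1 hbig
  have hn1R : (1 : ℝ) ≤ n1 := by exact_mod_cast hn1.pos
  have hl1 : 1 ≤ Real.log k := by
    have hkR : (16 : ℝ) ≤ k := by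
      have : 16 ≤ k := by omega
      exact_mod_cast this
    have h1 : Real.exp 1 ≤ k := by
      have := Real.exp_one_lt_d9
      linarith
    have h2 := Real.log_le_log (Real.exp_pos 1) h1
    rwa [Real.log_exp] at h2
  have hnl1 : (1 : ℝ) ≤ n1 * Real.log k := by nlinarith
  have hCC : ((n1 : ℝ) * Real.log k) ^ C ≤ ((n1 : ℝ) * Real.log k) ^ (C + 16) :=
    pow_le_pow_right₀ hnl1 (by omega)
  have key := hC k n1 (by omega) hn1 (hCC.trans hbig)
  constructor
  · intro G _ f γ hf hf1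
    exact (key G f γ hf hf1).trans (mul_le_mul_of_nonneg_right hCC (Nat.cast_nonneg _))
  · intro B hB
    classical
    have hone : (1 : ℝ) ≤ ((n1 : ℝ) * Real.log k) ^ (C + 16) := one_le_pow₀ hnl1
    have hB0 : (0 : ℝ) ≤ B.card := Nat.cast_nonneg _
    have hBk : B.card < k := by
      have h1 : (B.card : ℝ) < k := by nlinarith
      exact_mod_cast h1
    have hn10 : (n1 : ℚ) ≠ 0 := by exact_mod_cast hn1.pos.ne'
    -- an element outside `B`
    obtain ⟨n0, hn0⟩ : ∃ n0, SB k B n0 := by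
      by_contra hcon
      push Not at hcon
      have hsub : (Finset.range k).image (fun i => (2 * k - 1) ^ 2 + 2 * (i + 1)) ⊆ B := by
        intro n hn
        rw [Finset.mem_image] at hn
        obtain ⟨i, hi, rfl⟩ := hn
        rw [Finset.mem_range] at hi
        by_contra hnB
        apply hcon ((2 * k - 1) ^ 2 + 2 * (i + 1))
        have hk16 : 16 ≤ k := by omega
        refine ⟨?_, ?_, hnB⟩
        · rw [Finset.mem_Ioo]
          refine ⟨by omega, ?_⟩
          obtain ⟨w, hw⟩ : ∃ w, 2 * k = w + 1 := ⟨2 * k - 1, by omega⟩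
          rw [hw]
          have e1 : w + 1 - 1 = w := by omega
          rw [e1]
          nlinarith
        · have h1 : Odd (2 * k - 1) := ⟨k - 1, by omega⟩
          exact h1.pow.add_even (even_two_mul _)
      have hcard := Finset.card_le_card hsub
      rw [Finset.card_image_of_injective _ (fun i j hij => by
        have h1 : (2 * k - 1) ^ 2 + 2 * (i + 1) = (2 * k - 1) ^ 2 + 2 * (j + 1) := hij
        omega), Finset.card_range] at hcard
      omega
    have hpos0 : ∀ n, SB k B n → (n : ℚ) ≠ 0 := by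
      intro n hn
      have h1 := hn.1
      rw [Finset.mem_Ioo] at h1
      have : 0 < n := by omega
      exact_mod_cast this.ne'
    have hf1 : fB k B n1 = 1 := by
      by_contra hne
      have h1 := key (ℚˣ ⧸ HB k B) (fB k B) (fB k B n0) (fB_omg k B) hne
      have hsub : NG (fB k B) (fB k B n0) (2 * k) ⊆ B := by
        intro n hn
        obtain ⟨hn1', hn2, hn3⟩ := mem_NG.mp hn
        by_contra hnB
        apply hn3
        have hS : SB k B n := ⟨hn1', hn2, hnB⟩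
        have q1 := hpos0 n hS
        have q0 := hpos0 n0 hn0
        rw [fB_eq k B n q1, fB_eq k B n0 q0, QuotientGroup.eq]
        apply quot_mem k B n0 n hn0 hS
        simp [div_eq_inv_mul]
      have h2 : ((NG (fB k B) (fB k B n0) (2 * k)).card : ℝ) ≤ B.card := by
        exact_mod_cast Finset.card_le_card hsub
      have h3 : ((n1 : ℝ) * Real.log k) ^ C * (NG (fB k B) (fB k B n0) (2 * k)).card ≤
          ((n1 : ℝ) * Real.log k) ^ (C + 16) * B.card := by
        apply mul_le_mul hCC h2 (Nat.cast_nonneg _) (by positivity)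
      linarith
    rw [fB_eq k B n1 hn10, QuotientGroup.eq_one_iff] at hf1
    obtain ⟨e, h1, h2, h3⟩ := hf1
    exact ⟨e, h1, h2, by rw [h3]; rfl⟩

end Pool.Agent.Helper34_GG
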