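import Pool.Agent.Helper34_GG.Pa

/-!
# The main inequality

After `Helper27_OPH/MA2.lean` and `Helper77_OPH/FI2.lean`.
-/

set_option autoImplicit false

namespace Pool.Agent.Helper34_GG

open Finset Pool.Agent.OPG Pool.Agent.OPH

theorem ineq (a p d ch cu : ℝ) (hp : 10 ^ 8 ≤ p) (ha : p ^ 40 ≤ a)
    (h1 : a ≤ 2040 * p ^ 14 * ch) (h2 : ch ≤ cu + 2 * d)
    (h3 : cu ≤ 1 + (p ^ 5) ^ 4 + 280 * a / (p ^ 5) ^ 3) : a ≤ 8160 * p ^ 14 * d := by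
  have p0 : 0 < p := by linarith
  have a0 : 0 < a := lt_of_lt_of_le (by positivity) ha
  have e1 : 2040 * p ^ 14 * (280 * a / (p ^ 5) ^ 3) = 571200 * a / p := by
    field_simp
    ring
  have e2 : 571200 * a / p ≤ a / 4 := by
    rw [div_le_div_iff₀ p0 (by norm_num)]
    nlinarith
  have e3 : 2040 * p ^ 14 * (1 + (p ^ 5) ^ 4) ≤ a / 4 := by
    have k1 : (1 : ℝ) ≤ p ^ 20 := one_le_pow₀ (by linarith)
    have k2 : 2040 * p ^ 14 * (1 + (p ^ 5) ^ 4) ≤ 4080 * p ^ 34 := by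
      have : 4080 * p ^ 34 = 2040 * p ^ 14 * (p ^ 20 + p ^ 20) := by ring
      rw [this]
      have : (p ^ 5) ^ 4 = p ^ 20 := by ring
      rw [this]
      exact mul_le_mul_of_nonneg_left (by linarith) (by positivity)
    have k3 : (16320 : ℝ) ≤ p ^ 6 := by
      calc (16320 : ℝ) ≤ 10 ^ 8 := by norm_num
        _ ≤ p := hp
        _ ≤ p ^ 6 := le_self_pow₀ (by linarith) (by norm_num)
    have k4 : 16320 * p ^ 34 ≤ a := by
      calc 16320 * p ^ 34 ≤ p ^ 6 * p ^ 34 := mul_le_mul_of_nonneg_right k3 (by positivity)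
        _ = p ^ 40 := by ring
        _ ≤ a := ha
    linarith
  have e4 : a ≤ 2040 * p ^ 14 * (1 + (p ^ 5) ^ 4 + 280 * a / (p ^ 5) ^ 3 + 2 * d) := by
    refine h1.trans (mul_le_mul_of_nonneg_left ?_ (by positivity))
    linarith
  have e5 : 2040 * p ^ 14 * (1 + (p ^ 5) ^ 4 + 280 * a / (p ^ 5) ^ 3 + 2 * d) =
      2040 * p ^ 14 * (1 + (p ^ 5) ^ 4) + 2040 * p ^ 14 * (280 * a / (p ^ 5) ^ 3) +
        4080 * p ^ 14 * d := by ring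
  rw [e5, e1] at e4
  linarith

/-- the main inequality -/
theorem mag (hG : Gr2Stmt) (hO : OrdStmt) (hbad : BadStmt) (hCt3 : Ct3Stmt) :
    ∃ C : ℕ, 1 ≤ C ∧ ∀ (M n1 : ℕ), C ≤ M → Even M → Odd n1 → (n1 * Nat.log 2 M) ^ C ≤ M →
    ∀ (G : Type) [CommGroup G] (f : ℕ → G) (γ : G), OMG f → f n1 ≠ 1 →
    M ≤ 16320 * (n1 * Nat.log 2 M) ^ C * DG f γ M := by
  obtain ⟨C1, hC1, hC⟩ := pag hG hO hbad
  obtain ⟨L0, hL0⟩ : ∃ L0 : ℕ, L0 = 10 ^ 8 := ⟨_, rfl⟩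
  obtain ⟨N, hN⟩ : ∃ N : ℕ, N = 2 ^ L0 := ⟨_, rfl⟩
  obtain ⟨E, hE⟩ : ∃ E : ℕ, E = 50 * (C1 + 1) + N := ⟨_, rfl⟩
  refine ⟨E, by omega, ?_⟩
  intro M n1 hM hev hn1 hbig G _ f γ hf hf1
  obtain ⟨k, hk⟩ : ∃ k, k = Nat.log 2 M := ⟨_, rfl⟩
  rw [← hk] at hbig
  have hn1pos : 1 ≤ n1 := hn1.pos
  have hNM : 2 ^ L0 ≤ M := by omega
  have hL : L0 ≤ k := by
    rw [hk]
    exact Nat.le_log_of_pow_le (by norm_num) hNM
  have hk8 : 10 ^ 8 ≤ k := by rw [← hL0]; exact hL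
  have hk1 : 1 ≤ k := le_trans (by norm_num) hk8
  have hnk : 1 ≤ n1 * k := Nat.one_le_iff_ne_zero.mpr (by positivity)
  obtain ⟨P, hP⟩ : ∃ P : ℕ, P = 2 * (n1 * k ^ C1) + 1 := ⟨_, rfl⟩
  have hkC1 : k ≤ k ^ C1 := Nat.le_self_pow (by omega) k
  have hnkC : k ≤ n1 * k ^ C1 := hkC1.trans (Nat.le_mul_of_pos_left _ hn1pos)
  have hP8 : 10 ^ 8 ≤ P := by omega
  have hPE : P ≤ (n1 * k) ^ (C1 + 1) := by
    have h1 : P ≤ 3 * (n1 * k ^ C1) := by omega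
    have h3 : 3 ≤ k := le_trans (by norm_num) hk8
    calc P ≤ 3 * (n1 * k ^ C1) := h1
      _ ≤ k * (n1 * k ^ C1) := Nat.mul_le_mul_right _ h3
      _ = n1 * k ^ (C1 + 1) := by ring
      _ ≤ n1 ^ (C1 + 1) * k ^ (C1 + 1) :=
          Nat.mul_le_mul_right _ (Nat.le_self_pow (by omega) n1)
      _ = (n1 * k) ^ (C1 + 1) := by rw [mul_pow]
  have hP50 : P ^ 50 ≤ M := by
    calc P ^ 50 ≤ ((n1 * k) ^ (C1 + 1)) ^ 50 := Nat.pow_le_pow_left hPE 50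
      _ = (n1 * k) ^ (50 * (C1 + 1)) := by
          rw [← pow_mul, mul_comm (C1 + 1) 50]
      _ ≤ (n1 * k) ^ E := Nat.pow_le_pow_right hnk (by omega)
      _ ≤ M := hbig
  have hP1 : 1 ≤ P := by omega
  have hPpos : 0 < P ^ 10 := Nat.pos_of_ne_zero (by positivity)
  obtain ⟨A, hA⟩ : ∃ A : ℕ, A = M / P ^ 10 := ⟨_, rfl⟩
  have hA1 : A * P ^ 10 ≤ M := hA ▸ Nat.div_mul_le_self M _
  have hA2 : M < (A + 1) * P ^ 10 := by
    rw [hA]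
    exact Nat.lt_mul_of_div_lt (Nat.lt_succ_self _) hPpos
  have hA40 : P ^ 40 ≤ A := by
    rw [hA, Nat.le_div_iff_mul_le hPpos, ← pow_add]
    exact hP50
  have hPA : P ≤ A := (Nat.le_self_pow (by norm_num) P).trans hA40
  have hA100 : 100 ≤ A := le_trans (le_trans (by norm_num) hP8) hPA
  have hs10 : 10 ≤ P ^ 5 :=
    le_trans (le_trans (by norm_num) hP8) (Nat.le_self_pow (by norm_num) P)
  have hP40M : P ^ 40 ≤ M := (Nat.pow_le_pow_right hP1 (by norm_num)).trans hP50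
  have i1 := hC P M A n1 (by omega) hn1 (by rw [hP, hk]) hP40M hA1 hA2 G f hf hf1
  have i2 := chg f γ M (M + A) (M + 2 * A) hf
  have e10 : P ^ 10 = (P ^ 5) ^ 2 := by rw [← pow_mul]
  have i3 := hCt3 M A (P ^ 5) hev hA100 hs10 (by rw [← e10]; exact hA1) (by rw [← e10]; exact hA2)
  have j1 : (A : ℝ) ≤ 2040 * (P : ℝ) ^ 14 * ((HG f (M + A) (M + 2 * A)).card : ℝ) := by
    exact_mod_cast i1
  have j2 : ((HG f (M + A) (M + 2 * A)).card : ℝ) ≤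
      ((CU M (M + A) (M + 2 * A)).card : ℝ) + 2 * ((DG f γ M : ℕ) : ℝ) := by
    exact_mod_cast i2
  have j3 : ((CU M (M + A) (M + 2 * A)).card : ℝ) ≤
      1 + ((P : ℝ) ^ 5) ^ 4 + 280 * A / ((P : ℝ) ^ 5) ^ 3 := by
    have := i3
    push_cast at this
    exact this
  have j4 : ((10 : ℝ) ^ 8) ≤ P := by exact_mod_cast hP8
  have j5 : (P : ℝ) ^ 40 ≤ A := by exact_mod_cast hA40
  have j6 := ineq A P (DG f γ M : ℕ) _ _ j4 j5 j1 j2 j3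
  have k6 : A ≤ 8160 * P ^ 14 * DG f γ M := by exact_mod_cast j6
  have k7 : M ≤ 16320 * P ^ 24 * DG f γ M := by
    calc M ≤ (A + 1) * P ^ 10 := hA2.le
      _ ≤ (2 * A) * P ^ 10 := Nat.mul_le_mul_right _ (by omega)
      _ ≤ (2 * (8160 * P ^ 14 * DG f γ M)) * P ^ 10 :=
          Nat.mul_le_mul_right _ (Nat.mul_le_mul_left _ k6)
      _ = 16320 * P ^ 24 * DG f γ M := by ring
  rw [← hk]
  calc M ≤ 16320 * P ^ 24 * DG f γ M := k7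
    _ ≤ 16320 * ((n1 * k) ^ (C1 + 1)) ^ 24 * DG f γ M :=
        Nat.mul_le_mul_right _ (Nat.mul_le_mul_left _ (Nat.pow_le_pow_left hPE 24))
    _ = 16320 * (n1 * k) ^ (24 * (C1 + 1)) * DG f γ M := by
        rw [← pow_mul, mul_comm (C1 + 1) 24]
    _ ≤ 16320 * (n1 * k) ^ E * DG f γ M :=
        Nat.mul_le_mul_right _ (Nat.mul_le_mul_left _ (Nat.pow_le_pow_right hnk (by omega)))

/-- Cauchy-Schwarz -/
theorem fig (hG : Gr2Stmt) (hO : OrdStmt) (hbad : BadStmt) (hCt3 : Ct3Stmt) (hD : Dv2Stmt) :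
    ∃ C : ℕ, 1 ≤ C ∧ ∀ (M n1 : ℕ), C ≤ M → Even M → Odd n1 → (n1 * Nat.log 2 M) ^ C ≤ M →
    ∀ (G : Type) [CommGroup G] (f : ℕ → G) (γ : G), OMG f → f n1 ≠ 1 →
    M ≤ (n1 * Nat.log 2 M) ^ C * (NG f γ M).card := by
  obtain ⟨C, hC1, hC⟩ := mag hG hO hbad hCt3
  obtain ⟨D, hD1, hDV⟩ := hD
  obtain ⟨K, hK⟩ : ∃ K : ℕ, K = 16320 ^ 2 * D := ⟨_, rfl⟩
  obtain ⟨N, hN⟩ : ∃ N : ℕ, N = 2 ^ K := ⟨_, rfl⟩
  obtain ⟨E, hE⟩ : ∃ E : ℕ, E = 2 * C + D + 1 + N + 4 := ⟨_, rfl⟩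
  refine ⟨E, by omega, ?_⟩
  intro M n1 hM hev hn1 hbig G _ f γ hf hf1
  have hn1pos : 1 ≤ n1 := hn1.pos
  have hM4 : 4 ≤ M := by omega
  obtain ⟨k, hk⟩ : ∃ k, k = Nat.log 2 M := ⟨_, rfl⟩
  have hKk : K ≤ k := by
    rw [hk]
    apply Nat.le_log_of_pow_le (by norm_num)
    rw [← hN]
    omega
  have hk1 : 1 ≤ k := by
    rw [hk]
    exact Nat.log_pos (by norm_num) (by omega)
  rw [← hk] at hbig ⊢
  have hnk : 1 ≤ n1 * k := Nat.one_le_iff_ne_zero.mpr (by positivity)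
  have hkn : k ≤ n1 * k := Nat.le_mul_of_pos_left _ hn1pos
  have h1 := hC M n1 (by omega) hev hn1 (by
    rw [← hk]
    exact (Nat.pow_le_pow_right hnk (by omega)).trans hbig) G f γ hf hf1
  have h2 := hDV M hM4
  rw [← hk] at h1 h2
  have h3 : DG f γ M ^ 2 ≤ (NG f γ M).card * ∑ n ∈ NG f γ M, n.divisors.card ^ 2 := by
    unfold DG
    exact sq_sum_le_card_mul_sum_sq
  have h4 : ∑ n ∈ NG f γ M, n.divisors.card ^ 2 ≤
      ∑ n ∈ Finset.Ioo ((M - 1) ^ 2) ((M + 1) ^ 2), n.divisors.card ^ 2 := by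
    apply Finset.sum_le_sum_of_subset
    classical
    unfold NG
    exact Finset.filter_subset _ _
  have h5 : DG f γ M ^ 2 ≤ (NG f γ M).card * (D * M * k ^ D) :=
    h3.trans (Nat.mul_le_mul_left _ (h4.trans h2))
  have h6 : M ^ 2 ≤ (16320 * (n1 * k) ^ C) ^ 2 * ((NG f γ M).card * (D * M * k ^ D)) := by
    calc M ^ 2 ≤ (16320 * (n1 * k) ^ C * DG f γ M) ^ 2 := Nat.pow_le_pow_left h1 2
      _ = (16320 * (n1 * k) ^ C) ^ 2 * DG f γ M ^ 2 := by ring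
      _ ≤ _ := Nat.mul_le_mul_left _ h5
  have h7 : M * M ≤ (K * (n1 * k) ^ (2 * C) * k ^ D * (NG f γ M).card) * M := by
    calc M * M = M ^ 2 := by ring
      _ ≤ _ := h6
      _ = _ := by rw [hK, pow_mul]; ring
  have h8 : M ≤ K * (n1 * k) ^ (2 * C) * k ^ D * (NG f γ M).card :=
    Nat.le_of_mul_le_mul_right h7 (by omega)
  refine h8.trans ?_
  apply Nat.mul_le_mul_right
  calc K * (n1 * k) ^ (2 * C) * k ^ D ≤ (n1 * k) * (n1 * k) ^ (2 * C) * (n1 * k) ^ D := by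
        apply Nat.mul_le_mul
        · exact Nat.mul_le_mul_right _ (hKk.trans hkn)
        · exact Nat.pow_le_pow_left hkn D
    _ = (n1 * k) ^ (2 * C + D + 1) := by
        rw [pow_succ, pow_add]
        ring
    _ ≤ (n1 * k) ^ E := Nat.pow_le_pow_right hnk (by omega)

end Pool.Agent.Helper34_GG
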