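import Pool.Agent.Helper34_GG.Base
import Pool.Agent.OPH.StmtsB

/-!
# A closed path of ratios on which `f` is not trivial

After `Helper67_OPH/PT2.lean`.  For `f : odd numbers → G` with `f n₁ ≠ 1` one of the closed paths
`L (j+1) ++ L (j+1) ++ swap (L j)`, where `L j` is a list of ratios with product about
`n₁ ^ (1 / 2 ^ j)` (`L 0 = [(n₁, 1)]`, `L T = []`), has a value different from `1`.
-/

set_option autoImplicit false

namespace Pool.Agent.Helper34_GG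

open Finset Pool.Agent.OPG Pool.Agent.OPH

variable {G : Type} [CommGroup G]

theorem lsum_append (A B : List (ℕ × ℕ)) : lsum (A ++ B) = lsum A + lsum B := by
  unfold lsum
  rw [List.map_append, List.sum_append]

theorem lsum_nil : lsum [] = 0 := by simp [lsum]

theorem lsum_perm {A B : List (ℕ × ℕ)} (h : A.Perm B) : lsum A = lsum B := by
  unfold lsum
  exact (h.map _).sum_eq

/-- all ratios inverted -/
def swp (A : List (ℕ × ℕ)) : List (ℕ × ℕ) := A.map fun x => (x.2, x.1)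

theorem lsum_swp (A : List (ℕ × ℕ)) : lsum (swp A) = - lsum A := by
  induction A with
  | nil => simp [swp, lsum]
  | cons a l ih =>
    have e1 : lsum (swp (a :: l)) = (Real.log a.2 - Real.log a.1) + lsum (swp l) := by
      simp [swp, lsum]
    have e2 : lsum (a :: l) = (Real.log a.1 - Real.log a.2) + lsum l := by
      simp [lsum]
    rw [e1, e2, ih]
    ring

/-- the value of `f` on a list of ratios -/
def vl (f : ℕ → G) (A : List (ℕ × ℕ)) : G := (A.map fun x => f x.1 / f x.2).prod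

theorem vl_append (f : ℕ → G) (A B : List (ℕ × ℕ)) : vl f (A ++ B) = vl f A * vl f B := by
  unfold vl
  rw [List.map_append, List.prod_append]

theorem vl_swp (f : ℕ → G) (A : List (ℕ × ℕ)) : vl f (swp A) = (vl f A)⁻¹ := by
  induction A with
  | nil => simp [swp, vl]
  | cons a l ih =>
    have e1 : vl f (swp (a :: l)) = (f a.2 / f a.1) * vl f (swp l) := by
      simp [swp, vl]
    have e2 : vl f (a :: l) = (f a.1 / f a.2) * vl f l := by
      simp [vl]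
    rw [e1, e2, ih, mul_inv, inv_div]

theorem prod_getD (g : ℕ × ℕ → G) (d : ℕ × ℕ) (L : List (ℕ × ℕ)) :
    ∏ i ∈ range L.length, g (L.getD i d) = (L.map g).prod := by
  induction L with
  | nil => simp
  | cons a l ih =>
    rw [List.length_cons, prod_range_succ', List.map_cons, List.prod_cons, ← ih, mul_comm]
    rfl

theorem chain (v : ℕ → G) (T : ℕ) (h : ∀ j < T, v (j + 1) * v (j + 1) = v j) (hT : v T = 1) :
    v 0 = 1 := by
  induction T with
  | zero => exact hT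
  | succ T ih =>
    apply ih (fun j hj => h j (by omega))
    rw [← h T (by omega), hT, mul_one]

/-- one of the closed paths has a value different from one -/
theorem lists (hG : Gr2Stmt) : ∃ C : ℕ, 1 ≤ C ∧ ∀ (l n1 : ℕ), 1 ≤ l → Odd n1 →
    Real.log n1 ≤ l → ∀ (G : Type) [CommGroup G] (f : ℕ → G), OMG f → f n1 ≠ 1 →
    ∃ Λ : List (ℕ × ℕ), Λ.length ≤ 3 * (C * l ^ C) ∧
      (∀ x ∈ Λ, Odd x.1 ∧ Odd x.2 ∧ x.1 ≤ n1 * (C * l ^ C) ∧ x.2 ≤ n1 * (C * l ^ C)) ∧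
      |lsum Λ| ≤ 3 / 2 ^ l ∧ vl f Λ ≠ 1 := by
  obtain ⟨C, hC1, hC⟩ := hG
  refine ⟨C, hC1, ?_⟩
  intro l n1 hl hn1 hlog G _ f hf hfn
  have hn1pos : 1 ≤ n1 := hn1.pos
  have hn1R : (1 : ℝ) ≤ n1 := by exact_mod_cast hn1pos
  have hlog0 : 0 ≤ Real.log n1 := Real.log_nonneg hn1R
  obtain ⟨B, hB⟩ : ∃ B, B = C * l ^ C := ⟨_, rfl⟩
  have hB1 : 1 ≤ B := by
    rw [hB]
    exact Nat.one_le_iff_ne_zero.mpr (by positivity)
  rw [← hB]
  -- the lists
  have hex : ∀ j : ℕ, ∃ L : List (ℕ × ℕ), L.length ≤ B ∧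
      (∀ x ∈ L, Odd x.1 ∧ Odd x.2 ∧ x.1 ≤ B ∧ x.2 ≤ B) ∧
      0 ≤ Real.log n1 / 2 ^ j - lsum L ∧ Real.log n1 / 2 ^ j - lsum L ≤ 1 / 2 ^ l := by
    intro j
    have h2 : (1 : ℝ) ≤ 2 ^ j := one_le_pow₀ (by norm_num)
    have h3 := hC l hl (Real.log n1 / 2 ^ j) (by positivity)
      ((div_le_self hlog0 h2).trans hlog)
    rw [← hB] at h3
    exact h3
  choose L hL1 hL2 hL3 hL4 using hex
  obtain ⟨T, hT⟩ : ∃ T, T = 2 * l := ⟨_, rfl⟩
  -- the modified lists
  obtain ⟨A, hA⟩ : ∃ A : ℕ → List (ℕ × ℕ), ∀ j, A j = if j = 0 then [(n1, 1)] else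
      if j = T then [] else L j :=
    ⟨fun j => if j = 0 then [(n1, 1)] else if j = T then [] else L j, fun _ => rfl⟩
  have hA0 : A 0 = [(n1, 1)] := by rw [hA, if_pos rfl]
  have hAT : A T = [] := by rw [hA, if_neg (by omega), if_pos rfl]
  have hlen : ∀ j, (A j).length ≤ B := by
    intro j
    rw [hA]
    split_ifs
    · simpa using hB1
    · simp
    · exact hL1 j
  have hent : ∀ j, ∀ x ∈ A j, Odd x.1 ∧ Odd x.2 ∧ x.1 ≤ n1 * B ∧ x.2 ≤ n1 * B := by
    intro j x hx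
    rw [hA] at hx
    split_ifs at hx
    · rw [List.mem_singleton] at hx
      rw [hx]
      refine ⟨hn1, odd_one, ?_, ?_⟩
      · exact Nat.le_mul_of_pos_right _ hB1
      · change 1 ≤ n1 * B
        exact Nat.one_le_iff_ne_zero.mpr (by positivity)
    · exact absurd hx (List.not_mem_nil)
    · obtain ⟨a, b, c, d⟩ := hL2 j x hx
      exact ⟨a, b, c.trans (Nat.le_mul_of_pos_left _ hn1pos),
        d.trans (Nat.le_mul_of_pos_left _ hn1pos)⟩
  have h2l : (0 : ℝ) < 1 / 2 ^ l := by positivity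
  have hdev : ∀ j, 0 ≤ Real.log n1 / 2 ^ j - lsum (A j) ∧
      Real.log n1 / 2 ^ j - lsum (A j) ≤ 1 / 2 ^ l := by
    intro j
    rw [hA]
    split_ifs with h0 h1
    · rw [h0]
      have e : lsum [(n1, 1)] = Real.log n1 := by simp [lsum]
      rw [e]
      simp
    · rw [h1, hT, lsum_nil, sub_zero]
      refine ⟨by positivity, ?_⟩
      rw [div_le_div_iff₀ (by positivity) (by positivity), one_mul]
      have e1 : (l : ℝ) ≤ 2 ^ l := by
        have : l < 2 ^ l := Nat.lt_two_pow_self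
        exact_mod_cast this.le
      have e2 : (2 : ℝ) ^ (2 * l) = 2 ^ l * 2 ^ l := by rw [two_mul, pow_add]
      rw [e2]
      exact mul_le_mul_of_nonneg_right (hlog.trans e1) (by positivity)
    · exact ⟨hL3 j, hL4 j⟩
  -- one of the paths is not trivial
  have hf1 := hf.one
  obtain ⟨j, hj, hv⟩ : ∃ j < T, vl f (A (j + 1)) * vl f (A (j + 1)) ≠ vl f (A j) := by
    by_contra hcon
    push Not at hcon
    have h0 := chain (fun j => vl f (A j)) T hcon (by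
      change vl f (A T) = 1
      rw [hAT]
      simp [vl])
    change vl f (A 0) = 1 at h0
    rw [hA0] at h0
    apply hfn
    simpa [vl, hf1] using h0
  refine ⟨(A (j + 1) ++ A (j + 1)) ++ swp (A j), ?_, ?_, ?_, ?_⟩
  · rw [List.length_append, List.length_append]
    have e : (swp (A j)).length = (A j).length := by simp [swp]
    rw [e]
    have := hlen j
    have := hlen (j + 1)
    omega
  · intro x hx
    rw [List.mem_append, List.mem_append, or_self] at hx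
    rcases hx with hx | hx
    · exact hent _ x hx
    · unfold swp at hx
      rw [List.mem_map] at hx
      obtain ⟨y, hy, hyx⟩ := hx
      obtain ⟨a, b, c, d⟩ := hent _ y hy
      rw [← hyx]
      exact ⟨b, a, d, c⟩
  · rw [lsum_append, lsum_append, lsum_swp]
    have d1 := hdev j
    have d2 := hdev (j + 1)
    have e : Real.log n1 / 2 ^ j = 2 * (Real.log n1 / 2 ^ (j + 1)) := by
      rw [pow_succ]
      field_simp
    rw [e] at d1
    rw [abs_le]
    have e3 : (3 : ℝ) / 2 ^ l = 3 * (1 / 2 ^ l) := by ring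
    rw [e3]
    constructor
    · linarith [d1.1, d1.2, d2.1, d2.2]
    · linarith [d1.1, d1.2, d2.1, d2.2]
  · rw [vl_append, vl_append, vl_swp]
    intro h
    exact hv (mul_inv_eq_one.mp h)

/-- the path -/
theorem ptg (hG : Gr2Stmt) (hO : OrdStmt) : ∃ C : ℕ, 1 ≤ C ∧ ∀ (M n1 : ℕ), C ≤ M → Odd n1 →
    n1 ≤ M → ∀ (G : Type) [CommGroup G] (f : ℕ → G), OMG f → f n1 ≠ 1 →
    ∃ (J : ℕ) (p q : ℕ → ℕ) (c : ℕ → ℝ), J ≤ (Nat.log 2 M) ^ C ∧
      (∀ i < J, Odd (p i) ∧ Odd (q i) ∧ p i ≤ n1 * (Nat.log 2 M) ^ C ∧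
        q i ≤ n1 * (Nat.log 2 M) ^ C) ∧
      c 0 = 1 ∧ (∀ i < J, c (i + 1) * q i = c i * p i) ∧
      (∀ i ≤ J, 1 / (n1 * (Nat.log 2 M : ℝ) ^ C) ≤ c i ∧ c i ≤ n1 * (Nat.log 2 M : ℝ) ^ C) ∧
      |c J - 1| ≤ 1 / (M : ℝ) ∧ ∏ i ∈ range J, (f (p i) / f (q i)) ≠ 1 := by
  obtain ⟨C0, hC0, hC⟩ := lists hG
  obtain ⟨D, hD⟩ : ∃ D, D = 3 * (C0 * 2 ^ C0 + 2) := ⟨_, rfl⟩
  obtain ⟨C, hCd⟩ : ∃ C, C = C0 + 1 + 2 ^ (D + 4) := ⟨_, rfl⟩
  have hC01 : C0 + 1 ≤ C := by rw [hCd]; exact Nat.le_add_right _ _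
  have hC2 : 2 ^ (D + 4) ≤ C := by rw [hCd]; exact Nat.le_add_left _ _
  refine ⟨C, by omega, ?_⟩
  intro M n1 hM hn1 hn1M G _ f hf hfn
  have hMpos : M ≠ 0 := by omega
  obtain ⟨k, hk⟩ : ∃ k, k = Nat.log 2 M := ⟨_, rfl⟩
  rw [← hk]
  have hkl : D + 4 ≤ k := by
    rw [hk]
    exact Nat.le_log_of_pow_le (by norm_num) (hC2.trans hM)
  have hMk : M < 2 ^ (k + 1) := by
    rw [hk]
    exact Nat.lt_pow_succ_log_self (by norm_num) M
  have hMR : (0 : ℝ) < M := by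
    have : 0 < M := Nat.pos_of_ne_zero hMpos
    exact_mod_cast this
  have hn1pos : 1 ≤ n1 := hn1.pos
  have hn1R : (1 : ℝ) ≤ n1 := by exact_mod_cast hn1pos
  have hk1 : 1 ≤ k := by omega
  have hkR : (1 : ℝ) ≤ k := by exact_mod_cast hk1
  have hlog : Real.log n1 ≤ ((k + 4 : ℕ) : ℝ) := by
    have h1 : (n1 : ℝ) ≤ 2 ^ (k + 1) := by
      have : n1 ≤ 2 ^ (k + 1) := hn1M.trans hMk.le
      exact_mod_cast this
    have h2 : Real.log n1 ≤ Real.log ((2 : ℝ) ^ (k + 1)) :=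
      Real.log_le_log (by linarith) h1
    rw [Real.log_pow] at h2
    have h3 : Real.log 2 ≤ 1 := by
      have := Real.log_two_lt_d9
      linarith
    have h4 : ((k + 1 : ℕ) : ℝ) * Real.log 2 ≤ ((k + 1 : ℕ) : ℝ) * 1 :=
      mul_le_mul_of_nonneg_left h3 (Nat.cast_nonneg _)
    push_cast at h2 h4 ⊢
    linarith
  obtain ⟨Λ, hlen, hprop0, hsum, hval⟩ := hC (k + 4) n1 (by omega) hn1 hlog G f hf hfn
  -- sizes
  have hpow : C0 * (k + 4) ^ C0 ≤ C0 * 2 ^ C0 * k ^ C0 := by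
    rw [mul_assoc, ← mul_pow]
    exact Nat.mul_le_mul_left _ (Nat.pow_le_pow_left (by omega) _)
  have hlC0 : k ≤ k ^ C0 := by
    calc k = k ^ 1 := (pow_one k).symm
      _ ≤ k ^ C0 := Nat.pow_le_pow_right hk1 hC0
  obtain ⟨B, hB⟩ : ∃ B, B = C0 * (k + 4) ^ C0 + (k + 4) := ⟨_, rfl⟩
  have hB3 : 3 * B ≤ k ^ C := by
    calc 3 * B ≤ 3 * (C0 * 2 ^ C0 * k ^ C0 + 2 * k ^ C0) := by omega
      _ = D * k ^ C0 := by rw [hD]; ring
      _ ≤ k * k ^ C0 := Nat.mul_le_mul_right _ (by omega)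
      _ = k ^ (C0 + 1) := by rw [pow_succ, mul_comm]
      _ ≤ k ^ C := Nat.pow_le_pow_right hk1 hC01
  have hB1 : 1 ≤ B := by omega
  have hBR : (1 : ℝ) ≤ B := by exact_mod_cast hB1
  have hnB1 : (1 : ℝ) ≤ n1 * B := by nlinarith
  have h2l : (3 : ℝ) / 2 ^ (k + 4) ≤ 1 / M / 2 := by
    have h5 : (M : ℝ) ≤ 2 ^ (k + 1) := by exact_mod_cast hMk.le
    have h6 : (2 : ℝ) ^ (k + 4) = 2 ^ (k + 1) * 8 := by
      rw [show k + 4 = (k + 1) + 3 by ring, pow_add]
      norm_num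
    rw [h6, div_div, div_le_div_iff₀ (by positivity) (by positivity)]
    linarith
  have h2l1 : (1 : ℝ) / M ≤ 1 := by
    rw [div_le_one hMR]
    have : 1 ≤ M := Nat.pos_of_ne_zero hMpos
    exact_mod_cast this
  have h2l0 : (0 : ℝ) < 1 / M := by positivity
  have habs : |lsum Λ| ≤ 1 / M / 2 := hsum.trans h2l
  have hprop : ∀ x ∈ Λ, Odd x.1 ∧ Odd x.2 ∧ x.1 ≤ n1 * B ∧ x.2 ≤ n1 * B := by
    intro x hx
    obtain ⟨a, b, c, d⟩ := hprop0 x hx
    have e : C0 * (k + 4) ^ C0 ≤ B := by omega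
    exact ⟨a, b, c.trans (Nat.mul_le_mul_left _ e), d.trans (Nat.mul_le_mul_left _ e)⟩
  have hX0 : 0 ≤ Real.log (n1 * B) := Real.log_nonneg hnB1
  have hXle : ∀ x ∈ Λ, |Real.log x.1 - Real.log x.2| ≤ Real.log (n1 * B) := by
    intro x hx
    obtain ⟨h1, h2, h3, h4⟩ := hprop x hx
    have a1 : (1 : ℝ) ≤ x.1 := by exact_mod_cast h1.pos
    have a2 : (1 : ℝ) ≤ x.2 := by exact_mod_cast h2.pos
    have a3 : (x.1 : ℝ) ≤ n1 * B := by exact_mod_cast h3
    have a4 : (x.2 : ℝ) ≤ n1 * B := by exact_mod_cast h4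
    have b1 := Real.log_nonneg a1
    have b2 := Real.log_nonneg a2
    have b3 := Real.log_le_log (by linarith) a3
    have b4 := Real.log_le_log (by linarith) a4
    rw [abs_le]
    constructor <;> linarith
  obtain ⟨Λ', hperm, hpart⟩ := hO Λ (Real.log (n1 * B)) hX0 hXle
  have htot' : lsum Λ' = lsum Λ := lsum_perm hperm
  have hprop' : ∀ x ∈ Λ', Odd x.1 ∧ Odd x.2 ∧ x.1 ≤ n1 * B ∧ x.2 ≤ n1 * B :=
    fun x hx => hprop x (hperm.subset hx)
  have hlog3 : 1 ≤ Real.log 3 := by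
    have h1 : Real.exp 1 ≤ 3 := by
      have := Real.exp_one_lt_d9
      linarith
    rw [← Real.log_exp 1]
    exact Real.log_le_log (Real.exp_pos 1) h1
  have h3B : Real.log (3 * (n1 * B) : ℝ) = Real.log 3 + Real.log (n1 * B) :=
    Real.log_mul (by norm_num) (by linarith)
  have hbd : ∀ i, |lsum (Λ'.take i)| ≤ Real.log (3 * (n1 * B) : ℝ) := by
    intro i
    rw [h3B]
    have := hpart i
    linarith
  have hget : ∀ i (h : i < Λ'.length), Λ'.getD i (1, 1) = Λ'[i] := by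
    intro i h
    exact List.getD_eq_getElem _ _ _
  have hmem : ∀ i < Λ'.length, Λ'.getD i (1, 1) ∈ Λ' := by
    intro i h
    rw [hget i h]
    exact List.getElem_mem _
  have hBC : B ≤ k ^ C := by omega
  have h3BR : (3 : ℝ) * (n1 * B) ≤ n1 * (k : ℝ) ^ C := by
    have h5 : (3 : ℝ) * B ≤ (k : ℝ) ^ C := by exact_mod_cast hB3
    nlinarith
  have h3B0 : (0 : ℝ) < 3 * (n1 * B) := by linarith
  have hnBC : n1 * B ≤ n1 * k ^ C := Nat.mul_le_mul_left _ hBC
  refine ⟨Λ'.length, fun i => (Λ'.getD i (1, 1)).1, fun i => (Λ'.getD i (1, 1)).2,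
    fun i => Real.exp (lsum (Λ'.take i)), ?_, ?_, ?_, ?_, ?_, ?_, ?_⟩
  · rw [hperm.length_eq]
    have h5 : 3 * (C0 * (k + 4) ^ C0) ≤ 3 * B := by omega
    exact hlen.trans (h5.trans hB3)
  · intro i hi
    obtain ⟨a, b, c, d⟩ := hprop' _ (hmem i hi)
    exact ⟨a, b, c.trans hnBC, d.trans hnBC⟩
  · change Real.exp (lsum (Λ'.take 0)) = 1
    rw [List.take_zero, lsum_nil, Real.exp_zero]
  · intro i hi
    have hx := hprop' _ (hmem i hi)
    have hp : (0 : ℝ) < ((Λ'.getD i (1, 1)).1 : ℝ) := by exact_mod_cast hx.1.pos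
    have hq : (0 : ℝ) < ((Λ'.getD i (1, 1)).2 : ℝ) := by exact_mod_cast hx.2.1.pos
    have e : Λ'.take (i + 1) = Λ'.take i ++ [Λ'.getD i (1, 1)] := by
      rw [hget i hi]
      exact List.take_succ_eq_append_getElem _
    change Real.exp (lsum (Λ'.take (i + 1))) * ((Λ'.getD i (1, 1)).2 : ℝ)
      = Real.exp (lsum (Λ'.take i)) * ((Λ'.getD i (1, 1)).1 : ℝ)
    have e2 : lsum [Λ'.getD i (1, 1)] = Real.log ((Λ'.getD i (1, 1)).1 : ℝ)
        - Real.log ((Λ'.getD i (1, 1)).2 : ℝ) := by simp [lsum]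
    rw [e, lsum_append, e2, Real.exp_add, Real.exp_sub, Real.exp_log hp, Real.exp_log hq]
    field_simp
  · intro i _
    have hb := abs_le.mp (hbd i)
    constructor
    · change 1 / (n1 * (k : ℝ) ^ C) ≤ Real.exp (lsum (Λ'.take i))
      refine (one_div_le_one_div_of_le h3B0 h3BR).trans ?_
      rw [one_div, ← Real.exp_log h3B0, ← Real.exp_neg]
      exact Real.exp_le_exp.mpr hb.1
    · change Real.exp (lsum (Λ'.take i)) ≤ n1 * (k : ℝ) ^ C
      refine le_trans ?_ h3BR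
      calc Real.exp (lsum (Λ'.take i)) ≤ Real.exp (Real.log (3 * (n1 * B) : ℝ)) :=
            Real.exp_le_exp.mpr hb.2
        _ = 3 * (n1 * B) := Real.exp_log h3B0
  · change |Real.exp (lsum (Λ'.take Λ'.length)) - 1| ≤ _
    rw [List.take_length, htot']
    refine (Real.abs_exp_sub_one_le (by linarith)).trans ?_
    linarith
  · have e := prod_getD (fun x => f x.1 / f x.2) (1, 1) Λ'
    rw [e, (hperm.map _).prod_eq]
    exact hval

end Pool.Agent.Helper34_GG
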